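import Pool.Agent.W973.CES.Defs

/-!
# The reduction is polynomial-time computable
-/

set_option autoImplicit false

namespace Pool.Agent.W891.CES

open Pool.Agent.W973.CES Pool.Agent.NPC

variable {α : Type} [TEnc α]

theorem idxOf_eq_aux (v : ℕ) : ∀ (l : List ℕ) (n : ℕ),
    ((((l.zipIdx n).filter fun q => decide (q.1 = v)).head?.map fun q => q.2).getD
      (n + l.length)) = n + l.idxOf v
  | [], n => by simp
  | a :: l, n => by
    rw [List.zipIdx_cons]
    by_cases h : a = v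
    · subst h
      simp
    · rw [List.filter_cons_of_neg (by simpa using h), List.idxOf_cons_ne _ h, List.length_cons]
      have := idxOf_eq_aux v l (n + 1)
      rw [show n + (l.length + 1) = n + 1 + l.length by ring, this]
      omega

theorem poly_idxOf {l : α → List ℕ} {v : α → ℕ} (hl : NPC.Poly l) (hv : NPC.Poly v) :
    NPC.Poly (fun a => (l a).idxOf (v a)) := by
  have h1 : NPC.Poly (fun a => (((l a).zipIdx).filter fun q => decide (q.1 = v a)).head?) :=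
    NPC.Poly.head? (NPC.Poly.filter (p := fun a (q : ℕ × ℕ) => decide (q.1 = v a))
      (NPC.Poly.zipIdx hl)
      (NPC.Poly.decide_eq (NPC.Poly.fst (NPC.Poly.snd NPC.Poly.id))
        (hv.comp (NPC.Poly.fst NPC.Poly.id))))
  refine (NPC.Poly.optCases (g := fun a => (l a).length) (h := fun _ b => b.2) h1
    (NPC.Poly.length hl) (NPC.Poly.snd (NPC.Poly.snd NPC.Poly.id))).congr fun a => ?_
  have := idxOf_eq_aux (v a) (l a) 0
  simp only [zero_add] at this
  rw [← this]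
  cases (List.filter (fun q : ℕ × ℕ => decide (q.1 = v a)) (l a).zipIdx).head? <;> rfl

theorem poly_flat : NPC.Poly flat := by
  have h : NPC.Poly (fun p : CNF × (Lit ℕ × Lit ℕ × Lit ℕ) => [p.2.1, p.2.2.1, p.2.2.2]) :=
    NPC.Poly.cons (NPC.Poly.fst (NPC.Poly.snd NPC.Poly.id))
      (NPC.Poly.cons (NPC.Poly.fst (NPC.Poly.snd (NPC.Poly.snd NPC.Poly.id)))
        (NPC.Poly.cons (NPC.Poly.snd (NPC.Poly.snd (NPC.Poly.snd NPC.Poly.id)))
          (NPC.Poly.const [])))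
  exact NPC.Poly.flatMap (F := fun (_ : CNF) (c : Lit ℕ × Lit ℕ × Lit ℕ) => [c.1, c.2.1, c.2.2])
    NPC.Poly.id h

theorem upoly_n3 : UPoly n3 := UPoly.length poly_flat

theorem poly_n3 : NPC.Poly n3 := upoly_n3.toPoly

theorem upoly_NN : UPoly NN := UPoly.mul (UPoly.const 4) upoly_n3

theorem poly_lit {f : α → CNF} {i : α → ℕ} (hf : NPC.Poly f) (hi : NPC.Poly i) :
    NPC.Poly (fun a => lit (f a) (i a)) :=
  NPC.Poly.getD (poly_flat.comp hf) hi (NPC.Poly.const (true, 0))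

theorem poly_vars : NPC.Poly (fun φ : CNF => (flat φ).map Prod.snd) :=
  NPC.Poly.map (F := fun (_ : CNF) (x : Lit ℕ) => x.2) poly_flat
    (NPC.Poly.snd (NPC.Poly.snd NPC.Poly.id))

theorem poly_vr {f : α → CNF} {i : α → ℕ} (hf : NPC.Poly f) (hi : NPC.Poly i) :
    NPC.Poly (fun a => vr (f a) (i a)) :=
  NPC.Poly.add (poly_n3.comp hf)
    (poly_idxOf (poly_vars.comp hf) (NPC.Poly.snd (poly_lit hf hi)))

theorem poly_nx {i : α → ℕ} (hi : NPC.Poly i) : NPC.Poly (fun a => nx (i a)) :=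
  NPC.Poly.add (NPC.Poly.mul (NPC.Poly.const 3) (NPC.Poly.div hi (NPC.Poly.const 3)))
    (NPC.Poly.mod (NPC.Poly.add (NPC.Poly.mod hi (NPC.Poly.const 3)) (NPC.Poly.const 1))
      (NPC.Poly.const 3))

theorem poly_h2 {i : α → ℕ} (hi : NPC.Poly i) : NPC.Poly (fun a => 2 * (i a / 2)) :=
  NPC.Poly.mul (NPC.Poly.const 2) (NPC.Poly.div hi (NPC.Poly.const 2))

theorem poly_topM {f : α → CNF} {x : α → ℕ} (hf : NPC.Poly f) (hx : NPC.Poly x) :
    NPC.Poly (fun a => topM (f a) (x a)) := by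
  have hd : NPC.Poly (fun a => x a / 2) := NPC.Poly.div hx (NPC.Poly.const 2)
  have hm : NPC.Poly (fun a => x a % 2) := NPC.Poly.mod hx (NPC.Poly.const 2)
  have hl : NPC.Poly (fun a => [2 * (x a / 2) + 1]) :=
    NPC.Poly.cons (NPC.Poly.succ (poly_h2 hx)) (NPC.Poly.const [])
  have hnx : NPC.Poly (fun a => 2 * nx (x a / 2) + 1) :=
    NPC.Poly.succ (NPC.Poly.mul (NPC.Poly.const 2) (poly_nx hd))
  exact NPC.Poly.ite (p := fun a => x a % 2 = 0 ∧ x a / 2 < n3 (f a))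
    (NPC.Poly.decide_and (p := fun a => x a % 2 = 0) (q := fun a => x a / 2 < n3 (f a))
      (NPC.Poly.decide_eq hm (NPC.Poly.const 0)) (NPC.Poly.decide_lt hd (poly_n3.comp hf)))
    (NPC.Poly.cons (poly_h2 hx) (NPC.Poly.cons hnx hl))
    (NPC.Poly.cons (poly_h2 hx) hl)

theorem poly_occ {f : α → CNF} {g : α → ℕ} {s : α → Bool} (hf : NPC.Poly f) (hg : NPC.Poly g)
    (hs : NPC.Poly s) : NPC.Poly (fun a => occ (f a) (g a) (s a)) := by
  have h1 : NPC.Poly (fun p : α × ℕ => decide (vr (f p.1) p.2 = g p.1) &&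
      decide ((lit (f p.1) p.2).1 = s p.1)) := by
    refine NPC.Poly.and (NPC.Poly.decide_eq ?_ (hg.comp (NPC.Poly.fst NPC.Poly.id)))
      (NPC.Poly.decide_eq (NPC.Poly.fst ?_) (hs.comp (NPC.Poly.fst NPC.Poly.id)))
    · exact poly_vr (hf.comp (NPC.Poly.fst NPC.Poly.id)) (NPC.Poly.snd NPC.Poly.id)
    · exact poly_lit (hf.comp (NPC.Poly.fst NPC.Poly.id)) (NPC.Poly.snd NPC.Poly.id)
  exact NPC.Poly.map (F := fun (_ : α) (i : ℕ) => 2 * i + 1)
    (NPC.Poly.filter (p := fun a i => decide (vr (f a) i = g a) &&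
      decide ((lit (f a) i).1 = s a)) (UPoly.comp upoly_n3 hf).range h1)
    (NPC.Poly.succ (NPC.Poly.mul (NPC.Poly.const 2) (NPC.Poly.snd NPC.Poly.id)))

theorem poly_topW {f : α → CNF} {x : α → ℕ} (hf : NPC.Poly f) (hx : NPC.Poly x) :
    NPC.Poly (fun a => topW (f a) (x a)) := by
  have hd : NPC.Poly (fun a => x a / 2) := NPC.Poly.div hx (NPC.Poly.const 2)
  have hm : NPC.Poly (fun a => x a % 2) := NPC.Poly.mod hx (NPC.Poly.const 2)
  have hm0 : NPC.Poly (fun a => decide (x a % 2 = 0)) := NPC.Poly.decide_eq hm (NPC.Poly.const 0)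
  have hl : NPC.Poly (fun a => [2 * (x a / 2) + 1]) :=
    NPC.Poly.cons (NPC.Poly.succ (poly_h2 hx)) (NPC.Poly.const [])
  have hvr : NPC.Poly (fun a => 2 * vr (f a) (x a / 2) + 1) :=
    NPC.Poly.succ (NPC.Poly.mul (NPC.Poly.const 2) (poly_vr hf hd))
  exact NPC.Poly.ite (p := fun a => x a / 2 < n3 (f a))
    (NPC.Poly.decide_lt hd (poly_n3.comp hf))
    (NPC.Poly.ite (p := fun a => x a % 2 = 0) hm0
      (NPC.Poly.cons (poly_h2 hx) hl)
      (NPC.Poly.cons (poly_h2 hx) (NPC.Poly.cons hvr hl)))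
    (NPC.Poly.cons (poly_h2 hx) (NPC.Poly.append (poly_occ hf hd hm0) hl))

theorem poly_full {n : α → ℕ} {t : α → List ℕ} (hn : UPoly n) (ht : NPC.Poly t) :
    NPC.Poly (fun a => full (n a) (t a)) :=
  NPC.Poly.append ht (NPC.Poly.filter (p := fun a z => decide (z ∉ t a)) hn.range
    (NPC.Poly.decide_not (p := fun p : α × ℕ => p.2 ∈ t p.1)
      (NPC.Poly.decide_mem (NPC.Poly.snd NPC.Poly.id) (ht.comp (NPC.Poly.fst NPC.Poly.id)))))

theorem poly : S_POLY :=
  NPC.Poly.pair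
    (NPC.Poly.map (F := fun (φ : CNF) (x : ℕ) => full (NN φ) (topM φ x)) upoly_NN.range
      (poly_full (UPoly.comp upoly_NN (NPC.Poly.fst NPC.Poly.id))
        (poly_topM (NPC.Poly.fst NPC.Poly.id) (NPC.Poly.snd NPC.Poly.id))))
    (NPC.Poly.map (F := fun (φ : CNF) (x : ℕ) => full (NN φ) (topW φ x)) upoly_NN.range
      (poly_full (UPoly.comp upoly_NN (NPC.Poly.fst NPC.Poly.id))
        (poly_topW (NPC.Poly.fst NPC.Poly.id) (NPC.Poly.snd NPC.Poly.id))))

end Pool.Agent.W891.CES
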